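import Pool.Agent.Run7.h702.CT.C
import Pool.Agent.Results.MP_d0fd9b_nt.SparseSetsOfPrimes

/-!
# Class groups of real quadratic fields: the discriminants near ALL the terms of almost every Collatz trajectory

Let `P` be ANY set of primes that contains, for every `σ < s` and all large `y`, at least `y ^ σ` primes of the interval
`(y, 2y]` (`0 < s ≤ 1`; all primes, `s = 1`, for example), and let `a s > 1`. For a squarefree integer `D ≥ 2` consider the
prime ideals of `ℚ(√D)` whose norm is a prime number of `P` and at most `(log D)^a`. Let `ε > 0`, `e = (1 - s) / 2 + 1 / (2 a)`.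
Call `D` good if

* the classes of these prime ideals generate a subgroup of the class group of index at most `D^(e+ε)`,
* at least `h / D^(e+ε)` classes are products of at most `log D / log log D` such classes,
* if all these prime ideals are principal, then the class number `h` is at most `D^(e+ε)`.

Let `G` have steps bounded below by a positive constant and growth at most `v ^ d`, and let
`d (2 (1 - s) + 2 / a) + κ < 1`; for example `G v = v`, `s = 1`, `a` large, `κ < 1 - 2 / a`. There is `η > 0` with: for every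
`B` there is `K` such that for all `Y ≥ 2` and `N`, for all `m ≤ N` but at most `K N / (log Y) ^ B`, the trajectory of `m` under
the Collatz map (`n / 2`, `3 n + 1`) has a value smaller than `Y`, and for EVERY term `v` before it and ALL `1 ≤ b ≤ v ^ η` ALL
squarefree `D ≥ 2` with `|D - b G v| ≤ v ^ (κ + η)` are good; in particular all prime numbers there are good. So if `F` tends to
infinity, however slowly, then for almost every `m` this holds for all the terms of the trajectory of `m` down to its first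
value smaller than `F m`.

The starting theorem `SparseSetsOfPrimes` bounds the number of the `D` which are not good. The terms of the trajectory of a
random integer are not distributed like random integers of their size. The tool is the avoidance of thin sets by all the terms
of almost every trajectory (starting theorem; Tao's theorem in natural density), in the form of `Run7/h702/CT` (multiples and
windows).
-/

set_option autoImplicit false

namespace Pool.Agent.Results.MP_d0fd9b_nt.CollatzTerms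

open Finset Filter Topology NumberField
open Pool.Agent.Results.MP_d0fd9b_nt.SparseSetsOfPrimes (HasExponent Good AllBut smallPrimes Reach Gen)

/-- The Collatz map. -/
def collatz (n : ℕ) : ℕ := if n % 2 = 0 then n / 2 else 3 * n + 1

/-- The trajectory of `m` takes a value smaller than `Y`, and EVERY term `v` before it has the property `P`. -/
def AllTerms (P : ℕ → Prop) (Y : ℝ) (m : ℕ) : Prop :=
  ∃ k : ℕ, ((collatz^[k] m : ℕ) : ℝ) < Y ∧ ∀ j < k, P (collatz^[j] m)

/-- `P` holds for all the terms of almost every trajectory: (1) for every `B` there is `K` such that `AllTerms P Y m` holds, for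
all `Y ≥ 2` and `N`, for all the `m ∈ [1, N]` but at most `K N / (log Y)^B`; (2) for every function `F` which tends to infinity
the density of the `m` with `AllTerms P (F m) m` is `1`. -/
def OnAllTerms (P : ℕ → Prop) : Prop :=
  (∀ B : ℕ, ∃ K : ℝ, ∀ Y : ℝ, 2 ≤ Y → ∀ N : ℕ,
    (Set.ncard {m : ℕ | 1 ≤ m ∧ m ≤ N ∧ ¬ AllTerms P Y m} : ℝ) ≤ K * N / Real.log Y ^ B) ∧
  ∀ F : ℕ → ℝ, Tendsto F atTop atTop →
    Tendsto (fun N : ℕ => (Set.ncard {m : ℕ | 1 ≤ m ∧ m ≤ N ∧ AllTerms P (F m) m} : ℝ) / N) atTop (𝓝 1)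

/-- The steps of `G` are at least a positive constant, and `G` grows at most like `v ^ d`, `d ≥ 1`. -/
structure Expanding (G : ℕ → ℝ) (d : ℝ) : Prop where
  one_le : 1 ≤ d
  step : ∃ a : ℝ, 0 < a ∧ ∀ v : ℕ, 1 ≤ v → a ≤ G (v + 1) - G v
  growth : ∃ C : ℝ, ∀ v : ℕ, 1 ≤ v → G v ≤ C * (v : ℝ) ^ d

/-- `x` is near one of the small multiples of `G v`. -/
def Near (G : ℕ → ℝ) (κ η : ℝ) (v : ℕ) (x : ℝ) : Prop :=
  ∃ a : ℕ, 1 ≤ a ∧ (a : ℝ) ≤ (v : ℝ) ^ η ∧ |x - a * G v| ≤ (v : ℝ) ^ (κ + η)

theorem ex_of {G : ℕ → ℝ} {d : ℝ} (h : Expanding G d) : Pool.Agent.N733.TG.Expanding G d := ⟨h.one_le, h.step, h.growth⟩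

theorem ex_pow {a d : ℝ} (ha : 0 < a) (hd : 1 ≤ d) : Expanding (fun v => a * (v : ℝ) ^ d) d := by
  obtain ⟨h1, h2, h3⟩ := Pool.Agent.N733.TG.expanding_pow ha hd
  exact ⟨h1, h2, h3⟩

theorem on_of {P : ℕ → Prop} (h : Run7.h702.CT.OnAllTerms P) : OnAllTerms P := h

theorem good_mono {P : Set ℕ} {a e e' : ℝ} {D : ℕ} (hD : 2 ≤ D) (he : e ≤ e') (h : Good P a e D) : Good P a e' D := by
  intro K _ _ h2 hx
  obtain ⟨g1, g2, g3⟩ := h K h2 hx
  have hD1 : (1 : ℝ) ≤ D := by exact_mod_cast (by omega : 1 ≤ D)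
  have hp : (D : ℝ) ^ e ≤ (D : ℝ) ^ e' := Real.rpow_le_rpow_of_exponent_le hD1 he
  exact ⟨g1.trans (mul_le_mul_of_nonneg_right hp (Nat.cast_nonneg _)), g2.trans hp, fun h => (g3 h).trans hp⟩

/-- **Class groups of real quadratic fields near all the terms of almost every Collatz trajectory.** -/
theorem result (P : Set ℕ) (s : ℝ) (hs0 : 0 < s) (hs1 : s ≤ 1) (hP : HasExponent P s) (a ε : ℝ) (ha : 1 < a * s)
    (hε : 0 < ε) :
    (∀ (G : ℕ → ℝ) (d : ℝ), Expanding G d → ∀ κ : ℝ, 0 ≤ κ → d * (2 * (1 - s) + 2 / a) + κ < 1 → ∃ η : ℝ, 0 < η ∧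
      OnAllTerms (fun v => ∀ D : ℕ, Squarefree D → 2 ≤ D → Near G κ η v (D : ℝ) →
        Good P a ((1 - s) / 2 + 1 / (2 * a) + ε) D)) ∧
    ∀ α d : ℝ, 0 < α → 1 ≤ d → Expanding (fun v => α * (v : ℝ) ^ d) d := by
  classical
  refine ⟨fun G d hG κ hκ h1 => ?_, fun α d hα hd => ex_pow hα hd⟩
  have ha0 : 0 < a := by
    by_contra hcon
    push Not at hcon
    nlinarith
  have hf0 : 0 ≤ 2 * (1 - s) + 2 / a := by
    have : 0 < 2 / a := by positivity
    linarith
  obtain ⟨η, hη, h2⟩ := Run7.h702.CT.good_nat (fun D => Squarefree D ∧ 2 ≤ D)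
    (fun D => Good P a ((1 - s) / 2 + 1 / (2 * a) + ε) D) (ex_of hG) (s := 2 * (1 - s) + 2 / a) (κ := κ) hf0 hκ h1
    (fun ε' hε' => by
      obtain ⟨C, hC0, hC, -⟩ := SparseSetsOfPrimes.result P s hs0 hs1 hP a (min ε ε') ha (lt_min hε hε')
      refine ⟨C, fun X hX => ?_⟩
      have hX1 : (1 : ℝ) ≤ X := by exact_mod_cast hX
      have h3 : {t : ℕ | 1 ≤ t ∧ t ≤ X ∧ (Squarefree t ∧ 2 ≤ t) ∧ ¬ Good P a ((1 - s) / 2 + 1 / (2 * a) + ε) t} ⊆
          (((Finset.Icc 2 X).filter (fun d => Squarefree d ∧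
            ¬ Good P a ((1 - s) / 2 + 1 / (2 * a) + min ε ε') d) : Finset ℕ) : Set ℕ) := by
        rintro t ⟨t1, t2, ⟨t3, t4⟩, t5⟩
        rw [mem_coe, mem_filter, mem_Icc]
        exact ⟨⟨t4, t2⟩, t3, fun hg => t5 (good_mono t4 (by linarith [min_le_left ε ε']) hg)⟩
      have h4 := Set.ncard_le_ncard h3 (Finset.finite_toSet _)
      rw [Set.ncard_coe_finset] at h4
      have h5 : (((Finset.Icc 2 X).filter (fun d => Squarefree d ∧
            ¬ Good P a ((1 - s) / 2 + 1 / (2 * a) + min ε ε') d)).card : ℝ) ≤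
            C * (X : ℝ) ^ (2 * (1 - s) + 2 / a + min ε ε') := le_trans (le_of_eq (by congr!)) (hC X)
      refine le_trans (by exact_mod_cast h4) (h5.trans ?_)
      exact mul_le_mul_of_nonneg_left
        (Real.rpow_le_rpow_of_exponent_le hX1 (by linarith [min_le_right ε ε'])) hC0.le)
  refine ⟨η, hη, on_of (h2.imp (fun v hv D hD hD2 hN => ?_))⟩
  obtain ⟨b, hb1, hb2, hb3⟩ := hN
  exact hv b hb1 hb2 D (by omega) ⟨hD, hD2⟩ hb3

end Pool.Agent.Results.MP_d0fd9b_nt.CollatzTerms
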