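import Pool.Agent.Run7.h784.CG.All
import Pool.Agent.Run7.h576.TP.Quad

set_option autoImplicit false
set_option linter.all false

/-!
# The class number of `ℚ(√p)` and the primes up to `(log p) ^ a`

Let `a > 2` and `K = ℚ(√p)`. We show that for all but `o(π(X))` of the primes `p ≤ X`

* a prime number `l` divides the class number iff it divides the order of the class of a prime ideal of norm at
  most `(log p) ^ a`,
* the class number is `1` iff the equation `|x ^ 2 - p y ^ 2| = 4 q` has an integral solution for every prime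
  number `q ≤ (log p) ^ a` for which `p` is a square modulo `q` (`p` not `5` modulo `8` for `q = 2`).

The proof uses the theorem that for these `p` the class group is generated by the prime ideals of norm at most
`(log p) ^ a` (`Run7.h784.CG.All.finalPrimes`). Hence the proportion of the primes `p ≤ X` with class number one has the limit `c` (for example the constant of
Cohen and Lenstra) iff the proportion of the primes `p ≤ X` with the elementary property on the right has the
limit `c`.
-/

namespace Pool.Agent.Results.MP_d0fd9b_nt.GeneratedByTinyPrimes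

open Filter NumberField
open scoped Classical

/-- The subgroup of the class group generated by the classes of the nonzero prime ideals of norm at
most `B` (only used in the proof). -/
noncomputable def Gen (K : Type) [Field K] [NumberField K] (B : ℝ) : Subgroup (ClassGroup (𝓞 K)) :=
  Subgroup.closure {c | ∃ P : nonZeroDivisors (Ideal (𝓞 K)), (P : Ideal (𝓞 K)).IsPrime ∧
    ((Ideal.absNorm (P : Ideal (𝓞 K)) : ℕ) : ℝ) ≤ B ∧ ClassGroup.mk0 P = c}

/-- The class number of `ℚ(√p)` is one. -/
def ClassNumberOne (p : ℕ) : Prop :=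
  ∀ (K : Type) [Field K] [NumberField K], Module.finrank ℚ K = 2 → (∃ x : K, x ^ 2 = (p : K)) →
    classNumber K = 1

/-- `p` is a square modulo the prime number `q`, if `q` is odd; `p` is not `5` modulo `8`, if `q = 2`. -/
def IsRes (p q : ℕ) : Prop := if q = 2 then p % 8 ≠ 5 else ∃ r : ℤ, (q : ℤ) ∣ r ^ 2 - p

/-- For all prime numbers `q ≤ (log p) ^ a` such that `p` is a square modulo `q` (in the sense of `IsRes`) the equation
`|x ^ 2 - p y ^ 2| = 4 q` is solvable in integers. -/
def SmallSolvable (a : ℝ) (p : ℕ) : Prop :=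
  ∀ q : ℕ, q.Prime → (q : ℝ) ≤ (Real.log p) ^ a → IsRes p q →
    ∃ x y : ℤ, |x ^ 2 - p * y ^ 2| = 4 * q

/-- `l` divides the order of the class of the ideal `I`. -/
def DvdOrder (K : Type) [Field K] [NumberField K] (l : ℕ) (I : nonZeroDivisors (Ideal (𝓞 K))) : Prop :=
  l ∣ orderOf (ClassGroup.mk0 I)

/-- `l` divides the order of the class of a nonzero prime ideal of norm at most `B`. -/
def Detected (K : Type) [Field K] [NumberField K] (B : ℝ) (l : ℕ) : Prop :=
  ∃ P : nonZeroDivisors (Ideal (𝓞 K)), P.1.IsPrime ∧ ((Ideal.absNorm P.1 : ℕ) : ℝ) ≤ B ∧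
    DvdOrder K l P

/-- The property of the prime `p`: a prime number `l` divides the class number of `ℚ(√p)` iff it divides the order
of the class of a prime ideal of norm at most `(log p) ^ a`; and the class number is one iff the equations for the
prime numbers `q ≤ (log p) ^ a` are solvable. -/
def Good (a : ℝ) (p : ℕ) : Prop :=
  ∀ (K : Type) [Field K] [NumberField K], Module.finrank ℚ K = 2 → (∃ x : K, x ^ 2 = (p : K)) →
    (∀ l : ℕ, l.Prime → (l ∣ classNumber K ↔ Detected K ((Real.log p) ^ a) l)) ∧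
    (classNumber K = 1 ↔ SmallSolvable a p)

/-- The prime `p` does not have the property `Good`. -/
def Exceptional (a : ℝ) (p : ℕ) : Prop := ¬ Good a p

/-- The proportion of the primes `p ≤ X` with the property `G`. -/
noncomputable def proportion (G : ℕ → Prop) (X : ℕ) : ℝ :=
  (((Finset.Icc 2 X).filter (fun p => p.Prime ∧ G p)).card : ℝ) /
    (((Finset.Icc 2 X).filter Nat.Prime).card : ℝ)

/-! ### Small prime ideals -/

/-- If the prime numbers which are norms of ideals are norms of elements, small prime ideals are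
principal (helper784). -/
theorem principal_of (K : Type) [Field K] [NumberField K] (hK : Module.finrank ℚ K = 2) (B : ℝ)
    (h : ∀ q : ℕ, q.Prime → (q : ℝ) ≤ B →
      (∃ P : Ideal (𝓞 K), Ideal.absNorm P = q) → ∃ x : 𝓞 K, (Algebra.norm ℤ x).natAbs = q)
    (P : Ideal (𝓞 K)) (hP : P.IsPrime) (hB : ((Ideal.absNorm P : ℕ) : ℝ) ≤ B) :
    P.IsPrincipal := by
  by_cases hP0 : P = ⊥
  · rw [hP0]
    exact ⟨⟨0, by simp⟩⟩
  haveI := hP
  have hmax : P.IsMaximal := hP.isMaximal hP0
  -- the prime number below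
  obtain ⟨q, hq, hqP⟩ : ∃ q : ℕ, q.Prime ∧ ((q : ℕ) : 𝓞 K) ∈ P := by
    have h1 : Ideal.absNorm P ≠ 1 := by
      rw [Ne, Ideal.absNorm_eq_one_iff]
      exact hP.ne_top
    have h2 : (Ideal.absNorm P : 𝓞 K) ∈ P := Ideal.absNorm_mem P
    have h3 : Ideal.absNorm P ≠ 0 := by
      rw [Ne, Ideal.absNorm_eq_zero_iff]
      exact hP0
    have h4 : (((Ideal.absNorm P).primeFactorsList : Multiset ℕ).map
        (fun p : ℕ => (p : 𝓞 K))).prod ∈ P := by
      have e : (((Ideal.absNorm P).primeFactorsList : Multiset ℕ).map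
          (fun p : ℕ => (p : 𝓞 K))).prod = (Ideal.absNorm P : 𝓞 K) := by
        rw [← Nat.cast_multiset_prod, Multiset.prod_coe, Nat.prod_primeFactorsList h3]
      rw [e]
      exact h2
    obtain ⟨y, hy, hyP⟩ := (hP.multiset_prod_mem_iff_exists_mem _).1 h4
    obtain ⟨p, hp, rfl⟩ := Multiset.mem_map.1 hy
    exact ⟨p, Nat.prime_of_mem_primeFactorsList (Multiset.mem_coe.1 hp), hyP⟩
  have hspan : Ideal.span {((q : ℕ) : 𝓞 K)} ≤ P := (Ideal.span_singleton_le_iff_mem _).2 hqP
  have hnq : Ideal.absNorm (Ideal.span {((q : ℕ) : 𝓞 K)}) = q ^ 2 := by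
    rw [Ideal.absNorm_span_singleton]
    have e : ((q : ℕ) : 𝓞 K) = algebraMap ℤ (𝓞 K) (q : ℤ) := by simp
    rw [e, Algebra.norm_algebraMap, RingOfIntegers.rank, hK]
    simp
  have hdvd : Ideal.absNorm P ∣ q ^ 2 := by
    rw [← hnq]
    exact Ideal.absNorm_dvd_absNorm_of_le hspan
  obtain ⟨i, hi, hPi⟩ := (Nat.dvd_prime_pow hq).1 hdvd
  have hi0 : i ≠ 0 := by
    rintro rfl
    rw [pow_zero, Ideal.absNorm_eq_one_iff] at hPi
    exact hP.ne_top hPi
  have hq0 : ((q : ℕ) : 𝓞 K) ≠ 0 := by
    exact_mod_cast hq.ne_zero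
  have hspan0 : Ideal.span {((q : ℕ) : 𝓞 K)} ≠ ⊥ := by
    rw [Ne, Ideal.span_singleton_eq_bot]
    exact hq0
  obtain ⟨J, hJ⟩ := Ideal.dvd_iff_le.2 hspan
  have hmul : q ^ 2 = Ideal.absNorm P * Ideal.absNorm J := by
    rw [← hnq, hJ, map_mul]
  interval_cases i
  · exact absurd rfl hi0
  · -- degree one
    rw [pow_one] at hPi
    obtain ⟨x, hx⟩ := h q hq (by rw [hPi] at hB; exact hB) ⟨P, hPi⟩
    have hxn : Ideal.absNorm (Ideal.span {x}) = q := by
      rw [Ideal.absNorm_span_singleton, hx]
    have hxp : (Ideal.span {x}).IsPrime := by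
      apply Ideal.isPrime_of_irreducible_absNorm
      rw [hxn]
      exact hq
    have hx0 : Ideal.span {x} ≠ ⊥ := by
      intro h0
      rw [h0, Ideal.absNorm_bot] at hxn
      exact hq.ne_zero hxn.symm
    have hxq : Ideal.span {x} ∣ Ideal.span {((q : ℕ) : 𝓞 K)} := by
      rw [Ideal.dvd_iff_le, Ideal.span_singleton_le_iff_mem]
      have := Ideal.absNorm_mem (Ideal.span {x})
      rwa [hxn] at this
    by_cases hPx : P = Ideal.span {x}
    · rw [hPx]
      exact ⟨⟨x, rfl⟩⟩
    · -- the product of two different primes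
      have hxJ : Ideal.span {x} ∣ J := by
        rw [hJ] at hxq
        have hpr : Prime (Ideal.span {x}) := Ideal.prime_of_isPrime hx0 hxp
        rcases hpr.dvd_or_dvd hxq with h5 | h5
        · exfalso
          apply hPx
          rw [Ideal.dvd_iff_le] at h5
          exact (hmax.eq_of_le hxp.ne_top h5)
        · exact h5
      obtain ⟨J', hJ'⟩ := hxJ
      have hJn : Ideal.absNorm J = q := by
        rw [hPi, pow_two] at hmul
        exact (Nat.eq_of_mul_eq_mul_left hq.pos hmul).symm
      have hJ'1 : J' = ⊤ := by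
        rw [← Ideal.absNorm_eq_one_iff]
        have h6 : q = q * Ideal.absNorm J' := by
          conv_lhs => rw [← hJn, hJ', map_mul, hxn]
        exact (Nat.eq_of_mul_eq_mul_left hq.pos (by rw [mul_one]; exact h6)).symm
      have hJx : J = Ideal.span {x} := by
        rw [hJ', hJ'1, Ideal.mul_top]
      rw [hJx] at hJ
      obtain ⟨y, hy⟩ : x ∣ ((q : ℕ) : 𝓞 K) := by
        rw [← Ideal.span_singleton_le_span_singleton, hJ]
        exact Ideal.mul_le_right
      have hx0' : x ≠ 0 := by
        rintro rfl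
        apply hx0
        simp
      refine ⟨⟨y, ?_⟩⟩
      have h7 : P * Ideal.span {x} = Ideal.span {y} * Ideal.span {x} := by
        rw [← hJ, Ideal.span_singleton_mul_span_singleton, hy, mul_comm]
      exact mul_right_cancel₀ hx0 h7
  · -- degree two
    have hJ1 : J = ⊤ := by
      rw [← Ideal.absNorm_eq_one_iff]
      rw [hPi] at hmul
      exact (Nat.eq_of_mul_eq_mul_left (pow_pos hq.pos 2) (by rw [mul_one]; exact hmul)).symm
    rw [hJ1, Ideal.mul_top] at hJ
    rw [← hJ]
    exact ⟨⟨_, rfl⟩⟩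

theorem pid_of (K : Type) [Field K] [NumberField K] (B : ℝ) (hG : Gen K B = ⊤)
    (h : ∀ P : Ideal (𝓞 K), P.IsPrime → ((Ideal.absNorm P : ℕ) : ℝ) ≤ B → P.IsPrincipal) :
    classNumber K = 1 := by
  rw [classNumber, Fintype.card_eq_one_iff]
  refine ⟨1, fun c => ?_⟩
  have h1 : Gen K B = ⊥ := by
    rw [Gen, Subgroup.closure_eq_bot_iff]
    rintro c ⟨P, hP, hPB, rfl⟩
    rw [Set.mem_singleton_iff, ClassGroup.mk0_eq_one_iff]
    exact h _ hP hPB
  have h2 : c ∈ Gen K B := by
    rw [hG]
    trivial
  rw [h1] at h2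
  exact Subgroup.mem_bot.1 h2

/-- In a finite commutative group generated by a set `S` a prime number divides the order of the group iff it
divides the order of an element of `S`. -/
theorem dvd_card {G : Type} [CommGroup G] [Fintype G] (S : Set G) (hS : Subgroup.closure S = ⊤)
    (l : ℕ) (hl : l.Prime) : l ∣ Fintype.card G ↔ ∃ g ∈ S, l ∣ orderOf g := by
  constructor
  · intro h
    by_contra hcon
    push Not at hcon
    haveI : Fact l.Prime := ⟨hl⟩
    obtain ⟨x, hx⟩ := exists_prime_orderOf_dvd_card l h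
    have h1 : ∀ y ∈ Subgroup.closure S, ¬ l ∣ orderOf y := by
      intro y hy
      induction hy using Subgroup.closure_induction with
      | mem y hy => exact hcon y hy
      | one =>
        rw [orderOf_one]
        exact hl.one_lt.ne' ∘ Nat.dvd_one.1
      | mul y z _ _ ihy ihz =>
        intro h2
        have h3 := h2.trans ((Commute.all y z).orderOf_mul_dvd_mul_orderOf)
        rcases hl.dvd_mul.1 h3 with h4 | h4
        · exact ihy h4
        · exact ihz h4
      | inv y _ ih => rwa [orderOf_inv]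
    exact h1 x (by rw [hS]; trivial) (by rw [hx])
  · rintro ⟨g, -, h⟩
    exact h.trans (orderOf_dvd_card)

theorem good_of (a : ℝ) (p : ℕ) (hp : p.Prime) (h : Pool.Agent.H38R2.CG2.GoodA a p) :
    Good a p := by
  intro K _ _ hK hx
  have hG : Gen K ((Real.log p) ^ a) = ⊤ := h K hK hx
  obtain ⟨s, hs⟩ := hx
  refine ⟨fun l hl => ?_, fun h1 => ?_, fun h1 => ?_⟩
  · rw [classNumber, dvd_card _ hG l hl]
    constructor
    · rintro ⟨g, ⟨P, hP, hPB, rfl⟩, hlg⟩
      exact ⟨P, hP, hPB, hlg⟩
    · rintro ⟨P, hP, hPB, hlg⟩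
      exact ⟨_, ⟨P, hP, hPB, rfl⟩, hlg⟩
  · intro q hq _ hres
    haveI : IsPrincipalIdealRing (𝓞 K) := card_classGroup_eq_one_iff.1 h1
    obtain ⟨P, hP⟩ := (Run7.h576.TP.ideal_iff hK hp hs q hq).2 hres
    obtain ⟨x, hx⟩ := (IsPrincipalIdealRing.principal P).principal
    apply (Run7.h576.TP.elem_iff hK hp hs q).1
    refine ⟨x, ?_⟩
    rw [← hP, hx]
    exact (Ideal.absNorm_span_singleton x).symm
  · apply pid_of K _ hG
    intro P hP hPB
    apply principal_of K hK _ _ P hP hPB
    intro q hq hqB hqP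
    apply (Run7.h576.TP.elem_iff hK hp hs q).2
    exact h1 q hq hqB ((Run7.h576.TP.ideal_iff hK hp hs q hq).1 hqP)

/-- The field `ℚ(√p)`. -/
theorem exists_field (p : ℕ) (hp : p.Prime) : ∃ (K : Type) (_ : Field K) (_ : NumberField K),
    Module.finrank ℚ K = 2 ∧ ∃ x : K, x ^ 2 = (p : K) := by
  set f : Polynomial ℚ := Polynomial.X ^ 2 - Polynomial.C (p : ℚ) with hf
  have hm : f.Monic := by rw [hf]; monicity!
  have hd : f.natDegree = 2 := by rw [hf]; compute_degree!
  have hirr : Irreducible f := by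
    rw [hm.irreducible_iff_roots_eq_zero_of_degree_le_three (by rw [hd]) (by rw [hd]; norm_num)]
    rw [Multiset.eq_zero_iff_forall_notMem]
    intro a ha
    have h1 := (Polynomial.mem_roots'.1 ha).2
    rw [Polynomial.IsRoot.def, hf, Polynomial.eval_sub, Polynomial.eval_pow, Polynomial.eval_X,
      Polynomial.eval_C] at h1
    have h2 : IsSquare ((p : ℚ)) := ⟨a, by linear_combination -h1⟩
    exact hp.not_isSquare (Rat.isSquare_natCast_iff.1 h2)
  haveI : Fact (Irreducible f) := ⟨hirr⟩
  haveI : NumberField (AdjoinRoot f) := by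
    haveI : FiniteDimensional ℚ (AdjoinRoot f) := (AdjoinRoot.powerBasis hirr.ne_zero).finite
    exact { to_charZero := charZero_of_injective_algebraMap (algebraMap ℚ _).injective }
  refine ⟨AdjoinRoot f, inferInstance, inferInstance, ?_, AdjoinRoot.root f, ?_⟩
  · rw [(AdjoinRoot.powerBasis hirr.ne_zero).finrank, AdjoinRoot.powerBasis_dim, hd]
  · have h1 : AdjoinRoot.mk f f = 0 := AdjoinRoot.mk_self
    have h2 : AdjoinRoot.mk f (Polynomial.X ^ 2 - Polynomial.C (p : ℚ)) =
        AdjoinRoot.root f ^ 2 - (p : AdjoinRoot f) := by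
      rw [map_sub, map_pow, AdjoinRoot.mk_X]
      simp
    rw [← hf, h1] at h2
    exact (sub_eq_zero.1 h2.symm)

theorem one_iff (a : ℝ) (p : ℕ) (hp : p.Prime) (h : Good a p) :
    ClassNumberOne p ↔ SmallSolvable a p := by
  obtain ⟨K, _, _, hK, hx⟩ := exists_field p hp
  exact ⟨fun h1 => (h K hK hx).2.1 (h1 K hK hx),
    fun h1 K' _ _ hK' hx' => (h K' hK' hx').2.2 h1⟩

/-- Let `a > 2`. For all but `o(π(X))` of the primes `p ≤ X`: a prime number divides the class number of `ℚ(√p)`
iff it divides the order of the class of a prime ideal of norm at most `(log p) ^ a`, and the class number is one iff `|x ^ 2 - p y ^ 2| = 4 q` is solvable for all prime numbers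
`q ≤ (log p) ^ a` for which `p` is a square modulo `q`. Therefore the proportion of the primes `p ≤ X` with class number one
tends to `c` iff the proportion of the primes `p ≤ X` for which these equations are solvable tends to `c`. -/
theorem result (a : ℝ) (ha : 2 < a) :
    Tendsto (proportion (Exceptional a)) atTop (nhds 0) ∧
    ∀ c : ℝ, Tendsto (proportion ClassNumberOne) atTop (nhds c) ↔
      Tendsto (proportion (SmallSolvable a)) atTop (nhds c) := by
  have h0 : Tendsto (proportion (Exceptional a)) atTop (nhds 0) := by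
    refine squeeze_zero (fun X => by unfold proportion; positivity) (fun X => ?_)
      (Run7.h784.CG.All.finalPrimes a ha)
    refine div_le_div_of_nonneg_right ?_ (Nat.cast_nonneg _)
    refine Nat.cast_le.2 (Finset.card_le_card ?_)
    intro d hd
    rw [Finset.mem_filter] at hd ⊢
    exact ⟨hd.1, hd.2.1, fun h => hd.2.2 (good_of a d hd.2.1 h)⟩
  refine ⟨h0, fun c => tendsto_iff_of_dist ?_⟩
  refine squeeze_zero (fun X => dist_nonneg) (fun X => ?_) h0
  rw [Real.dist_eq]
  unfold proportion
  rw [← sub_div, abs_div, Nat.abs_cast]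
  refine div_le_div_of_nonneg_right ?_ (Nat.cast_nonneg _)
  generalize hA : (Finset.Icc 2 X).filter (fun p => p.Prime ∧ ClassNumberOne p) = A
  generalize hB : (Finset.Icc 2 X).filter (fun p => p.Prime ∧ SmallSolvable a p) = B
  generalize hE : (Finset.Icc 2 X).filter
    (fun p => p.Prime ∧ Exceptional a p) = E
  have h1 : A ⊆ B ∪ E := by
    intro p hp
    rw [← hA, Finset.mem_filter] at hp
    rw [Finset.mem_union, ← hB, ← hE, Finset.mem_filter, Finset.mem_filter]
    by_cases hg : Good a p
    · exact Or.inl ⟨hp.1, hp.2.1, (one_iff a p hp.2.1 hg).1 hp.2.2⟩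
    · exact Or.inr ⟨hp.1, hp.2.1, hg⟩
  have h2 : B ⊆ A ∪ E := by
    intro p hp
    rw [← hB, Finset.mem_filter] at hp
    rw [Finset.mem_union, ← hA, ← hE, Finset.mem_filter, Finset.mem_filter]
    by_cases hg : Good a p
    · exact Or.inl ⟨hp.1, hp.2.1, (one_iff a p hp.2.1 hg).2 hp.2.2⟩
    · exact Or.inr ⟨hp.1, hp.2.1, hg⟩
  have h3 : (A.card : ℝ) ≤ B.card + E.card := by
    exact_mod_cast (Finset.card_le_card h1).trans (Finset.card_union_le _ _)
  have h4 : (B.card : ℝ) ≤ A.card + E.card := by
    exact_mod_cast (Finset.card_le_card h2).trans (Finset.card_union_le _ _)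
  rw [abs_le]
  constructor <;> linarith

end Pool.Agent.Results.MP_d0fd9b_nt.GeneratedByTinyPrimes
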