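import Pool.Agent.Run7.h940.CN.H1

/-!
# The sum of the class numbers of the fields `ℚ(√p)`

For every `δ > 0` the sum of the class numbers `h(p)` of the fields `ℚ(√p)` over the primes `p ≤ X` is at
most `C X^(3/2) / (log X)^(5/2 - δ)`. (The class number formula and `log ε ≥ (1/2) log p` give
`X^(3/2) / (log X)^2` only.)

Proof. (1) All but `O(X exp(-(log X)^(δ/8)))` of the squarefree `d ≤ X` have a fundamental unit larger than
`exp((log X)^(3/2 - δ))`: the theorem behind MP_070445_nt.LargeUnits of the starting files (determinant
method). (2) The sum of `L(1, χ_p)` over the primes `p ≤ X` is `O(X / log X)`: Selberg's sieve weights, the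
Pólya-Vinogradov inequality for the Jacobi symbols modulo the numbers up to `X^(4/5)` and the positivity of the divisor
sums of the character. (3) The class number formula and the trivial bound for the exceptional primes.
-/

set_option autoImplicit false

namespace Pool.Agent.Results.MP_d0fd9b_nt.SumOverPrimes

/-- For every `δ > 0` there is `C` such that, for all `X ≥ 3`, the sum over the primes `p ≤ X` of the
class numbers of the fields `ℚ(√p)` is at most `C X ^ (3/2) / (log X) ^ (5/2 - δ)`. Here `K p` is, for
every prime `p`, any quadratic number field with a square root of `p`. -/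
theorem result (δ : ℝ) (hδ : 0 < δ) : ∃ C : ℝ,
    ∀ (K : ℕ → Type) [∀ p, Field (K p)] [∀ p, NumberField (K p)],
    (∀ p : ℕ, p.Prime → Module.finrank ℚ (K p) = 2 ∧ ∃ x : K p, x ^ 2 = (p : K p)) →
    ∀ X : ℕ, 3 ≤ X →
    ∑ p ∈ (Finset.Icc 2 X).filter Nat.Prime, (NumberField.classNumber (K p) : ℝ) ≤
      C * ((X : ℝ) ^ (3 / 2 : ℝ) / Real.log X ^ (5 / 2 - δ)) :=
  Run7.h940.CN.sum_all hδ

end Pool.Agent.Results.MP_d0fd9b_nt.SumOverPrimes
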